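import Mathlib
import Pool.Agent.V11141.DPDef
import Pool.Agent.V11141.DPLib

/-!
# A graph with `χ_DP(G) = 5` and `α_2^DP(G) < 2 |V(G)| / χ_DP(G)`
-/

namespace Pool.Agent.Results.MP_f6aace_co.TwoFold

open Pool.Agent.V11141.DP

/-- nonadjacent pairs -/
def nadj (u v : Fin 8) : Bool :=
  (u, v) == (3, 5) || (u, v) == (5, 3) || (u, v) == (4, 6) || (u, v) == (6, 4) ||
  (u, v) == (0, 7) || (u, v) == (7, 0) || (u, v) == (1, 7) || (u, v) == (7, 1) ||
  (u, v) == (2, 7) || (u, v) == (7, 2)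

/-- the graph: all pairs are adjacent except for `{3,5}, {4,6}, {0,7}, {1,7}, {2,7}` -/
def Gr : SimpleGraph (Fin 8) where
  Adj u v := u ≠ v ∧ nadj u v = false
  symm := ⟨by decide⟩
  loopless := ⟨fun _ h => h.1 rfl⟩

instance : DecidableRel Gr.Adj := fun u v => inferInstanceAs (Decidable (u ≠ v ∧ nadj u v = false))

/-- the triangle part -/
def tt : Fin 3 → Fin 8 := ![0, 1, 2]

/-- the four-cycle part -/
def qq : Fin 4 → Fin 8 := ![3, 4, 5, 6]

theorem avoid4 : ∀ p q r s : Fin 5, ∃ x : Fin 5, x ≠ p ∧ x ≠ q ∧ x ≠ r ∧ x ≠ s := by decide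

theorem avoid3 (p q r : Fin 5) : ∃ x : Fin 5, x ≠ p ∧ x ≠ q ∧ x ≠ r := by
  obtain ⟨x, h1, h2, h3, _⟩ := avoid4 p q r r
  exact ⟨x, h1, h2, h3⟩

theorem two_more : ∀ p t : Fin 5, t ≠ p → ∃ i1 i2 : Fin 5, i1 ≠ i2 ∧ i1 ≠ t ∧ i2 ≠ t ∧
    i1 ≠ p ∧ i2 ≠ p := by decide

/-- all vertices -/
theorem vcases : ∀ u : Fin 8, (∃ x, u = tt x) ∨ (∃ v, u = qq v) ∨ u = 7 := by decide

theorem qcases : ∀ v w : Fin 4, w = v ∨ w = v + 1 ∨ w = v + 2 ∨ w = v + 3 := by decide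

theorem adj_tt : ∀ x y : Fin 3, Gr.Adj (tt x) (tt y) → x ≠ y := by decide

theorem adj_qq : ∀ v w : Fin 4, Gr.Adj (qq v) (qq w) → w = v + 1 ∨ v = w + 1 := by decide

theorem not_adj_t7 : ∀ x : Fin 3, ¬ Gr.Adj (tt x) 7 := by decide

/-- assembling a colouring -/
theorem assemble (s : Fin 8 → Fin 8 → Equiv.Perm (Fin 5)) (hs : ∀ u v, s v u = (s u v)⁻¹)
    (ct : Fin 3 → Fin 5) (cq : Fin 4 → Fin 5)
    (h1 : ∀ x y, x ≠ y → ct y ≠ s (tt x) (tt y) (ct x))
    (h2 : ∀ x v, cq v ≠ s (tt x) (qq v) (ct x))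
    (h3 : ∀ v, cq (v + 1) ≠ s (qq v) (qq (v + 1)) (cq v)) :
    ∃ c : Fin 8 → Fin 5, ∀ u v, Gr.Adj u v → c v ≠ s u v (c u) := by
  obtain ⟨cz, z0, z1, z2, z3⟩ := avoid4 (s (qq 0) 7 (cq 0)) (s (qq 1) 7 (cq 1))
    (s (qq 2) 7 (cq 2)) (s (qq 3) 7 (cq 3))
  let c : Fin 8 → Fin 5 := ![ct 0, ct 1, ct 2, cq 0, cq 1, cq 2, cq 3, cz]
  have ct' : ∀ x, c (tt x) = ct x := by
    intro x; fin_cases x <;> rfl
  have cq' : ∀ v, c (qq v) = cq v := by
    intro v; fin_cases v <;> rfl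
  have cz' : c 7 = cz := rfl
  have hz : ∀ v, cz ≠ s (qq v) 7 (cq v) := by
    intro v; fin_cases v
    · exact z0
    · exact z1
    · exact z2
    · exact z3
  have hsym : ∀ u v, c v ≠ s u v (c u) → c u ≠ s v u (c v) := by
    intro u v h h'
    apply h
    rw [h', hs u v]
    simp
  refine ⟨c, fun u v huv => ?_⟩
  rcases vcases u with ⟨x, rfl⟩ | ⟨a, rfl⟩ | rfl <;> rcases vcases v with ⟨y, rfl⟩ | ⟨b, rfl⟩ | rfl
  · rw [ct', ct']
    exact h1 x y (adj_tt x y huv)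
  · rw [ct', cq']
    exact h2 x b
  · exact absurd huv (not_adj_t7 x)
  · apply hsym
    rw [ct', cq']
    exact h2 y a
  · rcases adj_qq a b huv with rfl | rfl
    · rw [cq', cq']; exact h3 a
    · apply hsym
      rw [cq', cq']; exact h3 b
  · rw [cq', cz']
    exact hz a
  · exact absurd huv.symm (not_adj_t7 y)
  · apply hsym
    rw [cq', cz']
    exact hz b
  · exact absurd rfl huv.1

theorem fin4 : ∀ v : Fin 4, v + 1 ≠ v ∧ v + 2 ≠ v ∧ v + 2 ≠ v + 1 ∧ v + 3 ≠ v ∧ v + 3 ≠ v + 1 ∧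
    v + 3 ≠ v + 2 ∧ v + 1 + 1 = v + 2 ∧ v + 2 + 1 = v + 3 ∧ v + 3 + 1 = v := by decide

theorem third : ∀ x y : Fin 3, x ≠ y → ∃ w : Fin 3, w ≠ x ∧ w ≠ y ∧
    ∀ z, z = x ∨ z = y ∨ z = w := by decide

/-- finishing when the vertex `v` has enough room -/
theorem finish (s : Fin 8 → Fin 8 → Equiv.Perm (Fin 5)) (hs : ∀ u v, s v u = (s u v)⁻¹)
    (ct : Fin 3 → Fin 5) (h1 : ∀ x y, x ≠ y → ct y ≠ s (tt x) (tt y) (ct x))
    (v : Fin 4) (d : Fin 5) (hd : ∀ x, d ≠ s (tt x) (qq (v + 1)) (ct x))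
    (hv : ∀ e : Fin 5, ∃ y : Fin 5, (∀ x, y ≠ s (tt x) (qq v) (ct x)) ∧
      y ≠ s (qq (v + 1)) (qq v) d ∧ y ≠ e) :
    ∃ c : Fin 8 → Fin 5, ∀ u v, Gr.Adj u v → c v ≠ s u v (c u) := by
  obtain ⟨d2, a0, a1, a2, a3⟩ := avoid4 (s (tt 0) (qq (v + 2)) (ct 0))
    (s (tt 1) (qq (v + 2)) (ct 1)) (s (tt 2) (qq (v + 2)) (ct 2))
    (s (qq (v + 1)) (qq (v + 2)) d)
  obtain ⟨d3, b0, b1, b2, b3⟩ := avoid4 (s (tt 0) (qq (v + 3)) (ct 0))
    (s (tt 1) (qq (v + 3)) (ct 1)) (s (tt 2) (qq (v + 3)) (ct 2))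
    (s (qq (v + 2)) (qq (v + 3)) d2)
  obtain ⟨d0, c1, c2, c3⟩ := hv (s (qq (v + 3)) (qq v) d3)
  let cq : Fin 4 → Fin 5 := fun w => if w = v then d0 else if w = v + 1 then d else
    if w = v + 2 then d2 else d3
  have hne := fin4 v
  obtain ⟨n1, n2, n3, n4, n5, n6, m1, m2, m3⟩ := hne
  have q0 : cq v = d0 := by simp [cq]
  have q1 : cq (v + 1) = d := by simp [cq]
  have q2 : cq (v + 2) = d2 := by simp [cq, n2, n3]
  have q3 : cq (v + 3) = d3 := by simp [cq, n4, n5, n6]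
  refine assemble s hs ct cq h1 ?_ ?_
  · intro x w
    rcases qcases v w with rfl | rfl | rfl | rfl
    · rw [q0]; exact c1 x
    · rw [q1]; exact hd x
    · rw [q2]; fin_cases x
      · exact a0
      · exact a1
      · exact a2
    · rw [q3]; fin_cases x
      · exact b0
      · exact b1
      · exact b2
  · intro w
    rcases qcases v w with rfl | rfl | rfl | rfl
    · rw [q0, q1]
      intro h
      apply c2
      rw [h, hs (qq w) (qq (w + 1))]
      simp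
    · rw [m1, q1, q2]; exact a3
    · rw [m2, q2, q3]; exact b3
    · rw [m3, q0, q3]; exact c3

theorem colour5 (s : Fin 8 → Fin 8 → Equiv.Perm (Fin 5)) (hs : ∀ u v, s v u = (s u v)⁻¹) :
    ∃ c : Fin 8 → Fin 5, ∀ u v, Gr.Adj u v → c v ≠ s u v (c u) := by
  by_cases hco : ∃ x y : Fin 3, x ≠ y ∧ ∃ (v : Fin 4) (i j : Fin 5), j ≠ s (tt x) (tt y) i ∧
      s (tt x) (qq v) i = s (tt y) (qq v) j
  · obtain ⟨x, y, hxy, v, i, j, hij, hv⟩ := hco
    obtain ⟨w, hwx, hwy, hall⟩ := third x y hxy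
    obtain ⟨k, hk1, hk2, -⟩ := avoid3 (s (tt x) (tt w) i) (s (tt y) (tt w) j) 0
    let ct : Fin 3 → Fin 5 := fun z => if z = x then i else if z = y then j else k
    have tx : ct x = i := by simp [ct]
    have ty : ct y = j := by simp [ct, hxy.symm]
    have tw : ct w = k := by simp [ct, hwx, hwy]
    have hsym : ∀ a b : Fin 3, ct b ≠ s (tt a) (tt b) (ct a) → ct a ≠ s (tt b) (tt a) (ct b) := by
      intro a b h h'
      apply h
      rw [h', hs (tt a) (tt b)]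
      simp
    have h1 : ∀ a b, a ≠ b → ct b ≠ s (tt a) (tt b) (ct a) := by
      have e1 : ct y ≠ s (tt x) (tt y) (ct x) := by rw [tx, ty]; exact hij
      have e2 : ct w ≠ s (tt x) (tt w) (ct x) := by rw [tx, tw]; exact hk1
      have e3 : ct w ≠ s (tt y) (tt w) (ct y) := by rw [ty, tw]; exact hk2
      intro a b hab
      rcases hall a with rfl | rfl | rfl <;> rcases hall b with rfl | rfl | rfl
      · exact absurd rfl hab
      · exact e1
      · exact e2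
      · exact hsym _ _ e1
      · exact absurd rfl hab
      · exact e3
      · exact hsym _ _ e2
      · exact hsym _ _ e3
      · exact absurd rfl hab
    obtain ⟨d, d0, d1, d2⟩ := avoid3 (s (tt 0) (qq (v + 1)) (ct 0))
      (s (tt 1) (qq (v + 1)) (ct 1)) (s (tt 2) (qq (v + 1)) (ct 2))
    refine finish s hs ct h1 v d ?_ ?_
    · intro z; fin_cases z
      · exact d0
      · exact d1
      · exact d2
    · intro e
      obtain ⟨c0, f0, f1, f2, f3⟩ := avoid4 (s (tt x) (qq v) i) (s (tt w) (qq v) k)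
        (s (qq (v + 1)) (qq v) d) e
      refine ⟨c0, fun z => ?_, f2, f3⟩
      rcases hall z with rfl | rfl | rfl
      · rw [tx]; exact f0
      · rw [ty, ← hv]; exact f0
      · rw [tw]; exact f1
  · push Not at hco
    -- flatness
    have flat : ∀ x y : Fin 3, x ≠ y → ∀ (v : Fin 4) (i : Fin 5),
        s (tt y) (qq v) (s (tt x) (tt y) i) = s (tt x) (qq v) i := by
      intro x y hxy v i
      by_contra hne
      refine hco x y hxy v i ((s (tt y) (qq v)).symm (s (tt x) (qq v) i)) ?_ (by simp)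
      intro h
      apply hne
      rw [← h]
      simp
    have h012 : ∀ i, s (tt 1) (tt 2) (s (tt 0) (tt 1) i) = s (tt 0) (tt 2) i := by
      intro i
      apply (s (tt 2) (qq 0)).injective
      rw [flat 1 2 (by decide), flat 0 1 (by decide), flat 0 2 (by decide)]
    have triple : ∀ i0 i1 i2 : Fin 5, i0 ≠ i1 → i0 ≠ i2 → i1 ≠ i2 →
        ∃ ct : Fin 3 → Fin 5, (∀ x y, x ≠ y → ct y ≠ s (tt x) (tt y) (ct x)) ∧
          ∀ (v : Fin 4) (p : Fin 5), (p ≠ s (tt 0) (qq v) i0 ∧ p ≠ s (tt 0) (qq v) i1 ∧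
            p ≠ s (tt 0) (qq v) i2) → ∀ x, p ≠ s (tt x) (qq v) (ct x) := by
      intro i0 i1 i2 h01 h02 h12
      let ct : Fin 3 → Fin 5 := ![i0, s (tt 0) (tt 1) i1, s (tt 0) (tt 2) i2]
      have hsym : ∀ a b : Fin 3, ct b ≠ s (tt a) (tt b) (ct a) →
          ct a ≠ s (tt b) (tt a) (ct b) := by
        intro a b h h'
        apply h
        rw [h', hs (tt a) (tt b)]
        simp
      have e1 : ct 1 ≠ s (tt 0) (tt 1) (ct 0) := fun h => h01 ((s _ _).injective h).symm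
      have e2 : ct 2 ≠ s (tt 0) (tt 2) (ct 0) := fun h => h02 ((s _ _).injective h).symm
      have e3 : ct 2 ≠ s (tt 1) (tt 2) (ct 1) := by
        show s (tt 0) (tt 2) i2 ≠ s (tt 1) (tt 2) (s (tt 0) (tt 1) i1)
        rw [h012]
        exact fun h => h12 ((s _ _).injective h).symm
      refine ⟨ct, ?_, ?_⟩
      · intro a b hab
        fin_cases a <;> fin_cases b
        · exact absurd rfl hab
        · exact e1
        · exact e2
        · exact hsym _ _ e1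
        · exact absurd rfl hab
        · exact e3
        · exact hsym _ _ e2
        · exact hsym _ _ e3
        · exact absurd rfl hab
      · intro v p hp x
        fin_cases x
        · exact hp.1
        · show p ≠ s (tt 1) (qq v) (s (tt 0) (tt 1) i1)
          rw [flat 0 1 (by decide)]
          exact hp.2.1
        · show p ≠ s (tt 2) (qq v) (s (tt 0) (tt 2) i2)
          rw [flat 0 2 (by decide)]
          exact hp.2.2
    by_cases hq : ∃ (v : Fin 4) (p : Fin 5),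
        s (qq (v + 1)) (qq v) (s (tt 0) (qq (v + 1)) p) ≠ s (tt 0) (qq v) p
    · obtain ⟨v, p, hvp⟩ := hq
      set t : Fin 5 := (s (tt 0) (qq v)).symm (s (qq (v + 1)) (qq v) (s (tt 0) (qq (v + 1)) p))
        with ht
      have htv : s (tt 0) (qq v) t = s (qq (v + 1)) (qq v) (s (tt 0) (qq (v + 1)) p) := by
        rw [ht]; simp
      have htp : t ≠ p := by
        intro h
        apply hvp
        rw [← htv, h]
      obtain ⟨i1, i2, g1, g2, g3, g4, g5⟩ := two_more p t htp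
      obtain ⟨ct, h1, h2⟩ := triple t i1 i2 g2.symm g3.symm g1
      refine finish s hs ct h1 v (s (tt 0) (qq (v + 1)) p) ?_ ?_
      · refine h2 (v + 1) _ ⟨?_, ?_, ?_⟩
        · exact fun h => htp ((s _ _).injective h).symm
        · exact fun h => g4 ((s _ _).injective h).symm
        · exact fun h => g5 ((s _ _).injective h).symm
      · intro e
        obtain ⟨c0, f0, f1, f2, f3⟩ := avoid4 (s (tt 0) (qq v) t) (s (tt 0) (qq v) i1)
          (s (tt 0) (qq v) i2) e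
        refine ⟨c0, h2 v c0 ⟨f0, f1, f2⟩, ?_, f3⟩
        rw [← htv]
        exact f0
    · push Not at hq
      obtain ⟨ct, h1, h2⟩ := triple 0 1 2 (by decide) (by decide) (by decide)
      let ε : Fin 4 → Fin 5 := ![3, 4, 3, 4]
      have hε : ∀ v : Fin 4, ε v ≠ 0 ∧ ε v ≠ 1 ∧ ε v ≠ 2 ∧ ε (v + 1) ≠ ε v := by decide
      refine assemble s hs ct (fun v => s (tt 0) (qq v) (ε v)) h1 ?_ ?_
      · intro x v
        refine h2 v _ ⟨?_, ?_, ?_⟩ x
        · exact fun h => (hε v).1 ((s _ _).injective h)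
        · exact fun h => (hε v).2.1 ((s _ _).injective h)
        · exact fun h => (hε v).2.2.1 ((s _ _).injective h)
      · intro v h
        have h3 : s (qq v) (qq (v + 1)) (s (tt 0) (qq v) (ε v)) = s (tt 0) (qq (v + 1)) (ε v) := by
          rw [← hq v (ε v), hs (qq (v + 1)) (qq v)]
          simp
        have h' : s (tt 0) (qq (v + 1)) (ε (v + 1)) =
          s (qq v) (qq (v + 1)) (s (tt 0) (qq v) (ε v)) := h
        rw [h3] at h'
        exact (hε v).2.2.2 ((s _ _).injective h')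

theorem chiDP_Gr : chiDP Gr = 5 := by
  have hmem : 5 ∈ {m : ℕ | ∀ (W : Type) (_ : Finite W) (H : SimpleGraph W)
      (L : Fin 8 → Set W), IsCover Gr H L → IsFold m L →
      ∃ I : Finset W, H.IsIndepSet (I : Set W) ∧ I.card = Nat.card (Fin 8)} := by
    intro W _ H L hc hm
    exact colour_of_perm hc hm colour5
  unfold chiDP
  apply le_antisymm
  · exact Nat.sInf_le hmem
  · by_contra hlt
    push Not at hlt
    exact not_small Gr 5 ![0, 1, 2, 3, 4] (by decide) _ hlt (Nat.sInf_mem ⟨_, hmem⟩)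

/-- edges with the crossing matching -/
def crs (u v : Fin 8) : Bool :=
  (u, v) == (3, 4) || (u, v) == (4, 3) || (u, v) == (4, 7) || (u, v) == (7, 4) ||
  (u, v) == (5, 7) || (u, v) == (7, 5)

/-- the 2-fold cover -/
def s2 (u v : Fin 8) : Equiv.Perm (Fin 2) := if crs u v then Equiv.swap 0 1 else 1

theorem s2_inv : ∀ u v, s2 v u = (s2 u v)⁻¹ := by decide

theorem no4 : ∀ u1 u2 : Fin 8, u1 < u2 → ∀ x1 x2 : Fin 2, ¬ (Gr.Adj u1 u2 ∧ x2 = s2 u1 u2 x1) →
    ∀ u3 : Fin 8, u2 < u3 → ∀ x3 : Fin 2, ¬ (Gr.Adj u1 u3 ∧ x3 = s2 u1 u3 x1) →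
      ¬ (Gr.Adj u2 u3 ∧ x3 = s2 u2 u3 x2) →
    ∀ u4 : Fin 8, u3 < u4 → ∀ x4 : Fin 2, ¬ (Gr.Adj u1 u4 ∧ x4 = s2 u1 u4 x1) →
      ¬ (Gr.Adj u2 u4 ∧ x4 = s2 u2 u4 x2) → ¬ (Gr.Adj u3 u4 ∧ x4 = s2 u3 u4 x3) → False := by
  decide

theorem alpha_Gr : alphaDP 2 Gr ≤ 3 := by
  have hle : alphaDP 2 Gr ≤ (permH Gr s2 s2_inv).indepNum :=
    Nat.sInf_le ⟨_, inferInstance, _, _, perm_cover Gr s2 s2_inv, perm_fold (Fin 8) 2, rfl⟩
  refine hle.trans ?_
  obtain ⟨I, hI⟩ := (permH Gr s2 s2_inv).exists_isNIndepSet_indepNum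
  obtain ⟨S, c, hS, hc⟩ := perm_indep Gr s2 s2_inv I hI.isIndepSet
  rw [← hI.card_eq, ← hS]
  by_contra hcard
  push Not at hcard
  obtain ⟨T, hTS, hT⟩ := Finset.exists_subset_card_eq (show 4 ≤ S.card from hcard)
  let f := T.orderEmbOfFin hT
  have hf : ∀ i, f i ∈ S := fun i => hTS (Finset.orderEmbOfFin_mem T hT i)
  have hlt : ∀ i j : Fin 4, i < j → f i < f j := fun i j h => f.strictMono h
  have hn : ∀ i j : Fin 4, ¬ (Gr.Adj (f i) (f j) ∧ c (f j) = s2 (f i) (f j) (c (f i))) :=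
    fun i j h => hc _ (hf i) _ (hf j) h.1 h.2
  exact no4 (f 0) (f 1) (hlt 0 1 (by decide)) _ _ (hn 0 1) (f 2) (hlt 1 2 (by decide)) _ (hn 0 2)
    (hn 1 2) (f 3) (hlt 2 3 (by decide)) _ (hn 0 3) (hn 1 3) (hn 2 3)

/-- There is a graph `G` (on 8 vertices) with `χ_DP(G) = 5 > 3` and
`α_2^DP(G) < 2 |V(G)| / χ_DP(G)`. -/
theorem result : ∃ G : SimpleGraph (Fin 8), chiDP G = 5 ∧ 3 < chiDP G ∧
    (alphaDP 2 G : ℚ) < 2 * (Nat.card (Fin 8) : ℚ) / (chiDP G : ℚ) := by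
  refine ⟨Gr, chiDP_Gr, by rw [chiDP_Gr]; norm_num, ?_⟩
  have h : (alphaDP 2 Gr : ℚ) ≤ 3 := by exact_mod_cast alpha_Gr
  rw [chiDP_Gr]
  simp only [Nat.card_eq_fintype_card, Fintype.card_fin]
  norm_num
  linarith

end Pool.Agent.Results.MP_f6aace_co.TwoFold
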